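import Mathlib

/-!
# Robust Katona theorem, part 1: lists and the coupling

A list of Booleans is a path with steps `+1` (`false`) and `-1` (`true`). `Bal x l`: the path started at `x` stays
nonnegative. `SB`, `SP`: sums over the nonnegative paths, resp. all paths, of length `m` from `x` to `e`. `Dm`: the
first path is at least the absolute value of the second one. `SB_le_SP` is the coupling (in dual form): a
uniform nonnegative path dominates the absolute value of a uniform path.
-/

set_option autoImplicit false

namespace Pool.Agent.RKS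

/-- the step -/
def st (b : Bool) : ℤ := if b then -1 else 1

@[simp] theorem st_true : st true = -1 := rfl
@[simp] theorem st_false : st false = 1 := rfl
@[simp] theorem st_not (b : Bool) : st (!b) = -st b := by cases b <;> rfl

/-- sum over all paths of length `m` from `y` to `e` -/
def SP (e : ℤ) : ℕ → ℤ → (List Bool → ℤ) → ℤ
  | 0, y, v => if y = e then v [] else 0
  | m + 1, y, v => SP e m (y + 1) (fun l => v (false :: l)) + SP e m (y - 1) (fun l => v (true :: l))

/-- sum over the nonnegative paths of length `m` from `x` to `e` -/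
def SB (e : ℤ) : ℕ → ℤ → (List Bool → ℤ) → ℤ
  | 0, x, u => if 0 ≤ x ∧ x = e then u [] else 0
  | m + 1, x, u => if 0 ≤ x then
      SB e m (x + 1) (fun l => u (false :: l)) + SB e m (x - 1) (fun l => u (true :: l)) else 0

/-- the number of all paths -/
def NP (e : ℤ) (m : ℕ) (y : ℤ) : ℤ := SP e m y (fun _ => 1)

/-- the number of nonnegative paths -/
def NB (e : ℤ) (m : ℕ) (x : ℤ) : ℤ := SB e m x (fun _ => 1)

/-- both ends -/
def NG (e : ℤ) (m : ℕ) (y : ℤ) : ℤ := NP e m y + NP e m (-y)

theorem SP_nonneg (e : ℤ) (m : ℕ) : ∀ (y : ℤ) (v : List Bool → ℤ), (∀ l, 0 ≤ v l) →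
    0 ≤ SP e m y v := by
  induction m with
  | zero =>
    intro y v hv
    unfold SP
    split_ifs
    · exact hv _
    · exact le_rfl
  | succ m ih =>
    intro y v hv
    unfold SP
    exact add_nonneg (ih _ _ fun l => hv _) (ih _ _ fun l => hv _)

theorem SB_nonneg (e : ℤ) (m : ℕ) : ∀ (x : ℤ) (u : List Bool → ℤ), (∀ l, 0 ≤ u l) →
    0 ≤ SB e m x u := by
  induction m with
  | zero =>
    intro x u hu
    unfold SB
    split_ifs
    · exact hu _
    · exact le_rfl
  | succ m ih =>
    intro x u hu
    unfold SB
    split_ifs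
    · exact add_nonneg (ih _ _ fun l => hu _) (ih _ _ fun l => hu _)
    · exact le_rfl

theorem NP_nonneg (e : ℤ) (m : ℕ) (y : ℤ) : 0 ≤ NP e m y := SP_nonneg e m y _ fun _ => zero_le_one
theorem NB_nonneg (e : ℤ) (m : ℕ) (x : ℤ) : 0 ≤ NB e m x := SB_nonneg e m x _ fun _ => zero_le_one
theorem NG_nonneg (e : ℤ) (m : ℕ) (y : ℤ) : 0 ≤ NG e m y :=
  add_nonneg (NP_nonneg e m y) (NP_nonneg e m _)

theorem NP_succ (e : ℤ) (m : ℕ) (y : ℤ) : NP e (m + 1) y = NP e m (y + 1) + NP e m (y - 1) := rfl

theorem NB_succ {e : ℤ} {m : ℕ} {x : ℤ} (hx : 0 ≤ x) :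
    NB e (m + 1) x = NB e m (x + 1) + NB e m (x - 1) := by
  unfold NB
  rw [SB, if_pos hx]

theorem NG_succ (e : ℤ) (m : ℕ) (y : ℤ) : NG e (m + 1) y = NG e m (y + 1) + NG e m (y - 1) := by
  unfold NG
  rw [NP_succ, NP_succ]
  have h1 : -y + 1 = -(y - 1) := by ring
  have h2 : -y - 1 = -(y + 1) := by ring
  rw [h1, h2]
  ring

theorem NG_neg (e : ℤ) (m : ℕ) (y : ℤ) : NG e m (-y) = NG e m y := by
  unfold NG
  rw [neg_neg, add_comm]

theorem SB_neg {e : ℤ} {m : ℕ} {x : ℤ} (hx : x < 0) (u : List Bool → ℤ) : SB e m x u = 0 := by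
  cases m with
  | zero => unfold SB; rw [if_neg]; omega
  | succ m => unfold SB; rw [if_neg (by omega)]

/-- the quotient `NB / NG` increases in steps of two -/
theorem ratio (e : ℤ) (he : 0 ≤ e) (m : ℕ) : ∀ x x' : ℤ, 0 ≤ x → x ≤ x' → Even (x' - x) →
    NB e m x * NG e m x' ≤ NB e m x' * NG e m x := by
  induction m with
  | zero =>
    intro x x' hx hxx hev
    by_cases h : x = x'
    · subst h; exact le_rfl
    have hx' : x < x' := lt_of_le_of_ne hxx h
    have h1 : NB e 0 x = if x = e then 1 else 0 := by
      unfold NB SB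
      simp [hx]
    have h2 : NB e 0 x' = if x' = e then 1 else 0 := by
      unfold NB SB
      simp [hx.trans hxx]
    have h3 : NG e 0 x = (if x = e then 1 else 0) + (if -x = e then 1 else 0) := by
      unfold NG NP SP; rfl
    have h4 : NG e 0 x' = (if x' = e then 1 else 0) + (if -x' = e then 1 else 0) := by
      unfold NG NP SP; rfl
    rw [h1, h2, h3, h4]
    split_ifs <;> omega
  | succ m ih =>
    intro x x' hx hxx hev
    by_cases h : x = x'
    · subst h; exact le_rfl
    have hx2 : x + 2 ≤ x' := by
      obtain ⟨k, hk⟩ := hev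
      omega
    rw [NB_succ hx, NB_succ (hx.trans hxx), NG_succ, NG_succ]
    have e1 : Even ((x' + 1) - (x + 1)) := by simpa using hev
    have e2 : Even ((x' - 1) - (x - 1)) := by simpa using hev
    have e3 : Even ((x' + 1) - (x - 1)) := by
      have : (x' + 1) - (x - 1) = (x' - x) + 2 := by ring
      rw [this]; exact hev.add (by decide)
    have e4 : Even ((x' - 1) - (x + 1)) := by
      have : (x' - 1) - (x + 1) = (x' - x) - 2 := by ring
      rw [this]; exact hev.sub (by decide)
    have i1 := ih (x + 1) (x' + 1) (by omega) (by omega) e1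
    have i4 := ih (x + 1) (x' - 1) (by omega) (by omega) e4
    have i2 : NB e m (x - 1) * NG e m (x' - 1) ≤ NB e m (x' - 1) * NG e m (x - 1) := by
      rcases lt_or_ge (x - 1) 0 with h0 | h0
      · have : NB e m (x - 1) = 0 := SB_neg h0 _
        rw [this, zero_mul]
        exact mul_nonneg (NB_nonneg _ _ _) (NG_nonneg _ _ _)
      · exact ih _ _ h0 (by omega) e2
    have i3 : NB e m (x - 1) * NG e m (x' + 1) ≤ NB e m (x' + 1) * NG e m (x - 1) := by
      rcases lt_or_ge (x - 1) 0 with h0 | h0
      · have : NB e m (x - 1) = 0 := SB_neg h0 _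
        rw [this, zero_mul]
        exact mul_nonneg (NB_nonneg _ _ _) (NG_nonneg _ _ _)
      · exact ih _ _ h0 (by omega) e3
    linarith

/-- the number of nonnegative paths (reflection) -/
theorem NB_eq {e : ℤ} (he : 0 ≤ e) (m : ℕ) : ∀ x : ℤ, -1 ≤ x →
    NB e m x = NP e m x - NP e m (-x - 2) := by
  induction m with
  | zero =>
    intro x hx
    unfold NB NP SB SP
    split_ifs <;> omega
  | succ m ih =>
    intro x hx
    rcases eq_or_lt_of_le hx with h | h
    · subst h
      unfold NB
      rw [SB_neg (by norm_num)]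
      norm_num
    · have hx0 : 0 ≤ x := by omega
      rw [NB_succ hx0, NP_succ, NP_succ, ih (x + 1) (by omega), ih (x - 1) (by omega)]
      have h1 : -(x + 1) - 2 = -x - 2 - 1 := by ring
      have h2 : -(x - 1) - 2 = -x - 2 + 1 := by ring
      rw [h1, h2]
      ring

/-- `|second path| ≤ first path` -/
def Dm : ℤ → ℤ → List Bool → List Bool → Prop
  | x, y, [], [] => |y| ≤ x
  | x, y, b :: a, c :: z => |y| ≤ x ∧ Dm (x + st b) (y + st c) a z
  | _, _, _, _ => False

/-- the arithmetic of one step of the coupling -/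
theorem step_arith {U1 U2 To Ti F1 F2 Go Gi : ℤ}
    (hF1 : 0 ≤ F1) (hF2 : 0 ≤ F2) (hGo : 0 ≤ Go) (hGi : 0 ≤ Gi)
    (h1 : U1 * Go ≤ To * F1) (h2 : U1 * Gi ≤ Ti * F1) (h3 : U2 * Gi ≤ Ti * F2)
    (hr : F2 * Go ≤ F1 * Gi) (hTo0 : Go = 0 → To = 0) (hTi0 : Gi = 0 → Ti = 0)
    (hU20 : F2 = 0 → U2 = 0) :
    (U1 + U2) * (Go + Gi) ≤ (To + Ti) * (F1 + F2) := by
  rcases eq_or_lt_of_le hGo with g | g
  · rw [← g, hTo0 g.symm]
    nlinarith
  rcases eq_or_lt_of_le hGi with g' | g'
  · rw [← g', hTi0 g'.symm]
    rw [← g'] at hr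
    have : F2 = 0 := by
      have := mul_nonneg hF2 hGo
      have h0 : F2 * Go = 0 := by linarith
      rcases mul_eq_zero.1 h0 with h | h
      · exact h
      · omega
    rw [this, hU20 this]
    nlinarith
  -- multiply everything by `Go * Gi`
  have key : (U1 + U2) * (Go + Gi) * (Go * Gi) ≤ (To + Ti) * (F1 + F2) * (Go * Gi) := by
    rcases le_total (To * Gi) (Ti * Go) with h | h
    · -- `to ≤ ti`
      have a1 : U1 * Go * Gi ≤ To * F1 * Gi := mul_le_mul_of_nonneg_right h1 hGi
      have a2 : U2 * Gi * Go ≤ Ti * F2 * Go := mul_le_mul_of_nonneg_right h3 hGo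
      have a3 : 0 ≤ (F1 * Gi - F2 * Go) * (Ti * Go - To * Gi) :=
        mul_nonneg (sub_nonneg.2 hr) (sub_nonneg.2 h)
      have a4 : (U1 + U2) * (Go * Gi) ≤ To * F1 * Gi + Ti * F2 * Go := by nlinarith
      have a5 := mul_le_mul_of_nonneg_right a4 (add_nonneg hGo hGi)
      nlinarith
    · -- `ti ≤ to`
      have a4 : (U1 + U2) * Gi ≤ Ti * (F1 + F2) := by nlinarith
      have a5 := mul_le_mul_of_nonneg_right a4 (mul_nonneg hGo (add_nonneg hGo hGi))
      have a6 : 0 ≤ (F1 + F2) * Go * (To * Gi - Ti * Go) :=
        mul_nonneg (mul_nonneg (add_nonneg hF1 hF2) hGo) (sub_nonneg.2 h)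
      nlinarith
  exact le_of_mul_le_mul_right key (mul_pos g g')

theorem SP_zero {e : ℤ} {m : ℕ} : ∀ {y : ℤ} {v : List Bool → ℤ}, NP e m y = 0 →
    SP e m y v = 0 := by
  induction m with
  | zero =>
    intro y v h
    unfold NP SP at h
    unfold SP
    split_ifs at h ⊢
    · exact absurd h one_ne_zero
    · rfl
  | succ m ih =>
    intro y v h
    rw [NP_succ] at h
    have h1 := NP_nonneg e m (y + 1)
    have h2 := NP_nonneg e m (y - 1)
    unfold SP
    rw [ih (by omega), ih (by omega)]
    rfl

theorem SB_zero {e : ℤ} {m : ℕ} : ∀ {y : ℤ} {v : List Bool → ℤ}, NB e m y = 0 →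
    SB e m y v = 0 := by
  induction m with
  | zero =>
    intro y v h
    unfold NB SB at h
    unfold SB
    split_ifs at h ⊢
    · exact absurd h one_ne_zero
    · rfl
  | succ m ih =>
    intro y v h
    unfold SB
    split_ifs with hy
    · rw [NB_succ hy] at h
      have h1 := NB_nonneg e m (y + 1)
      have h2 := NB_nonneg e m (y - 1)
      rw [ih (by omega), ih (by omega)]
      rfl
    · rfl

/-- the coupling, in dual form -/
theorem SB_le_SP {e : ℤ} (he : 0 ≤ e) (m : ℕ) : ∀ (x y : ℤ), 0 ≤ y → y ≤ x → Even (x - y) →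
    ∀ (u v w : List Bool → ℤ), (∀ l, 0 ≤ u l) → (∀ l, 0 ≤ v l) → (∀ l, 0 ≤ w l) →
    (∀ a z : List Bool, a.length = m → z.length = m → Dm x y a z → u a ≤ v z) →
    (∀ a z : List Bool, a.length = m → z.length = m → Dm x (-y) a z → u a ≤ w z) →
    SB e m x u * NG e m y ≤ (SP e m y v + SP e m (-y) w) * NB e m x := by
  induction m with
  | zero =>
    intro x y hy hxy hev u v w hu hv hw h1 h2
    have hx : 0 ≤ x := hy.trans hxy
    have e1 : SB e 0 x u = if x = e then u [] else 0 := by
      unfold SB; simp [hx]
    have e2 : NB e 0 x = if x = e then 1 else 0 := by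
      unfold NB SB; simp [hx]
    have e3 : NG e 0 y = (if y = e then 1 else 0) + (if -y = e then 1 else 0) := by
      unfold NG NP SP; rfl
    have e4 : SP e 0 y v = if y = e then v [] else 0 := rfl
    have e5 : SP e 0 (-y) w = if -y = e then w [] else 0 := rfl
    have i1 : u [] ≤ v [] := h1 [] [] rfl rfl (by
      show |y| ≤ x
      rw [abs_of_nonneg hy]; exact hxy)
    have i2 : u [] ≤ w [] := h2 [] [] rfl rfl (by
      show |-y| ≤ x
      rw [abs_neg, abs_of_nonneg hy]; exact hxy)
    have j1 := hv []
    have j2 := hw []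
    rw [e1, e2, e3, e4, e5]
    split_ifs <;> simp <;> linarith
  | succ m ih =>
    intro x y hy hxy hev u v w hu hv hw h1 h2
    have hx : 0 ≤ x := hy.trans hxy
    have eU : SB e (m + 1) x u = SB e m (x + 1) (fun l => u (false :: l)) +
        SB e m (x - 1) (fun l => u (true :: l)) := by
      rw [SB, if_pos hx]
    have ay : |y| ≤ x := by rw [abs_of_nonneg hy]; exact hxy
    have ay' : |-y| ≤ x := by rw [abs_neg]; exact ay
    -- closure conditions after one step
    have c : ∀ (b c : Bool) (a z : List Bool), a.length = m → z.length = m →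
        Dm (x + st b) (y + st c) a z → u (b :: a) ≤ v (c :: z) := fun b c a z ha hz h =>
      h1 (b :: a) (c :: z) (by simp [ha]) (by simp [hz]) ⟨ay, h⟩
    have d : ∀ (b c : Bool) (a z : List Bool), a.length = m → z.length = m →
        Dm (x + st b) (-y + st c) a z → u (b :: a) ≤ w (c :: z) := fun b c a z ha hz h =>
      h2 (b :: a) (c :: z) (by simp [ha]) (by simp [hz]) ⟨ay', h⟩
    have u1 : ∀ l, 0 ≤ u (false :: l) := fun l => hu _
    have u2 : ∀ l, 0 ≤ u (true :: l) := fun l => hu _
    have v1 : ∀ l, 0 ≤ v (false :: l) := fun l => hv _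
    have v2 : ∀ l, 0 ≤ v (true :: l) := fun l => hv _
    have w1 : ∀ l, 0 ≤ w (false :: l) := fun l => hw _
    have w2 : ∀ l, 0 ≤ w (true :: l) := fun l => hw _
    rcases eq_or_lt_of_le hy with hy0 | hy0
    · -- `y = 0`
      subst hy0
      have sv : SP e (m + 1) 0 v = SP e m 1 (fun l => v (false :: l)) +
          SP e m (-1) (fun l => v (true :: l)) := by
        rw [SP]; norm_num
      have sw : SP e (m + 1) (-0) w = SP e m 1 (fun l => w (false :: l)) +
          SP e m (-1) (fun l => w (true :: l)) := by
        rw [SP]; norm_num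
      have sG : NG e (m + 1) 0 = NG e m 1 + NG e m 1 := by
        rw [NG_succ]
        have : NG e m (0 - 1) = NG e m 1 := by
          rw [← NG_neg]; norm_num
        rw [this]; norm_num
      have hev1 : Even (x + 1 - 1) := by simpa using hev
      have p1 := ih (x + 1) 1 (by norm_num) (by omega) hev1 _ _ _ u1 v1 v2
        (fun a z ha hz h => c false false a z ha hz (by simpa using h))
        (fun a z ha hz h => c false true a z ha hz (by simpa using h))
      have p2 := ih (x + 1) 1 (by norm_num) (by omega) hev1 _ _ _ u1 w1 w2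
        (fun a z ha hz h => d false false a z ha hz (by simpa using h))
        (fun a z ha hz h => d false true a z ha hz (by simpa using h))
      rw [eU, sv, sw, sG, NB_succ hx]
      rcases eq_or_lt_of_le hx with hx0 | hx0
      · -- `x = 0`
        have z1 : SB e m (x - 1) (fun l => u (true :: l)) = 0 := SB_neg (by omega) _
        have z2 : NB e m (x - 1) = 0 := SB_neg (by omega) _
        rw [z1, z2]
        linarith
      · have hx2 : 2 ≤ x := by
          obtain ⟨k, hk⟩ := hev
          omega
        have hev2 : Even (x - 1 - 1) := by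
          have : x - 1 - 1 = (x - 0) - 2 := by ring
          rw [this]; exact hev.sub (by decide)
        have p3 := ih (x - 1) 1 (by norm_num) (by omega) hev2 _ _ _ u2 v1 v2
          (fun a z ha hz h => c true false a z ha hz (by simpa [sub_eq_add_neg] using h))
          (fun a z ha hz h => c true true a z ha hz (by simpa [sub_eq_add_neg] using h))
        have p4 := ih (x - 1) 1 (by norm_num) (by omega) hev2 _ _ _ u2 w1 w2
          (fun a z ha hz h => d true false a z ha hz (by simpa [sub_eq_add_neg] using h))
          (fun a z ha hz h => d true true a z ha hz (by simpa [sub_eq_add_neg] using h))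
        linarith
    · -- `y ≥ 1`
      have sv : SP e (m + 1) y v = SP e m (y + 1) (fun l => v (false :: l)) +
          SP e m (y - 1) (fun l => v (true :: l)) := rfl
      have sw : SP e (m + 1) (-y) w = SP e m (-(y - 1)) (fun l => w (false :: l)) +
          SP e m (-(y + 1)) (fun l => w (true :: l)) := by
        rw [SP]
        have q1 : -y + 1 = -(y - 1) := by ring
        have q2 : -y - 1 = -(y + 1) := by ring
        rw [q1, q2]
      have q1 : -y + st false = -(y - 1) := by rw [st_false]; ring
      have q2 : -y + st true = -(y + 1) := by rw [st_true]; ring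
      have q3 : y + st true = y - 1 := by rw [st_true]; ring
      have q4 : x + st true = x - 1 := by rw [st_true]; ring
      have ev1 : Even (x + 1 - (y + 1)) := by simpa using hev
      have ev2 : Even (x + 1 - (y - 1)) := by
        have : x + 1 - (y - 1) = (x - y) + 2 := by ring
        rw [this]; exact hev.add (by decide)
      have ev3 : Even (x - 1 - (y - 1)) := by simpa using hev
      have ev4 : Even (x - 1 - (y + 1)) := by
        have : x - 1 - (y + 1) = (x - y) - 2 := by ring
        rw [this]; exact hev.sub (by decide)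
      have k1 := ih (x + 1) (y + 1) (by omega) (by omega) ev1 _ _ _ u1 v1 w2
        (fun a z ha hz h => c false false a z ha hz h)
        (fun a z ha hz h => d false true a z ha hz (by rw [q2]; exact h))
      have k2 := ih (x + 1) (y - 1) (by omega) (by omega) ev2 _ _ _ u1 v2 w1
        (fun a z ha hz h => c false true a z ha hz (by rw [q3]; exact h))
        (fun a z ha hz h => d false false a z ha hz (by rw [q1]; exact h))
      have k3 := ih (x - 1) (y - 1) (by omega) (by omega) ev3 _ _ _ u2 v2 w1
        (fun a z ha hz h => c true true a z ha hz (by rw [q3, q4]; exact h))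
        (fun a z ha hz h => d true false a z ha hz (by rw [q1, q4]; exact h))
      rw [eU, sv, sw, NG_succ, NB_succ hx]
      rcases eq_or_lt_of_le hxy with hxy0 | hxy0
      · -- `x = y`
        have r := ratio e he m (x - 1) (x + 1) (by omega) (by omega) (by
          have : x + 1 - (x - 1) = 2 := by ring
          rw [this]; decide)
        have r' : NB e m (x - 1) * NG e m (y + 1) ≤ NB e m (x + 1) * NG e m (y - 1) := by
          rw [hxy0]; exact r
        have zo : NG e m (y + 1) = 0 → SP e m (y + 1) (fun l => v (false :: l)) +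
            SP e m (-(y + 1)) (fun l => w (true :: l)) = 0 := by
          intro h
          unfold NG at h
          have a1 := NP_nonneg e m (y + 1)
          have a2 := NP_nonneg e m (-(y + 1))
          rw [SP_zero (by omega), SP_zero (by omega), add_zero]
        have zi : NG e m (y - 1) = 0 → SP e m (y - 1) (fun l => v (true :: l)) +
            SP e m (-(y - 1)) (fun l => w (false :: l)) = 0 := by
          intro h
          unfold NG at h
          have a1 := NP_nonneg e m (y - 1)
          have a2 := NP_nonneg e m (-(y - 1))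
          rw [SP_zero (by omega), SP_zero (by omega), add_zero]
        have fin := step_arith (NB_nonneg e m (x + 1)) (NB_nonneg e m (x - 1))
          (NG_nonneg e m (y + 1)) (NG_nonneg e m (y - 1)) k1 k2 k3 r' zo zi
          (fun h => SB_zero h)
        linarith
      · have hxy2 : y + 2 ≤ x := by
          obtain ⟨k, hk⟩ := hev
          omega
        have k4 := ih (x - 1) (y + 1) (by omega) (by omega) ev4 _ _ _ u2 v1 w2
          (fun a z ha hz h => c true false a z ha hz (by rw [q4]; exact h))
          (fun a z ha hz h => d true true a z ha hz (by rw [q2, q4]; exact h))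
        linarith

end Pool.Agent.RKS
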