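import Mathlib

/-! # MP_f155e9_co: shifted families, sections, upper shadows

`Sz n r U`: the members of `U` are `r`-subsets of `range n`; `Shf U`: `U` is shifted to the left;
`s0 n U`, `s1 n U`: the sections of `U` at `n`; `up n U`: the upper shadow in `range n`. -/

set_option autoImplicit false

namespace Pool.Agent.RKS

open Finset

/-- the members of `U` are `r`-subsets of `range n` -/
def Sz (n r : ℕ) (U : Finset (Finset ℕ)) : Prop := ∀ B ∈ U, B ⊆ range n ∧ B.card = r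

/-- `U` is shifted to the left -/
def Shf (U : Finset (Finset ℕ)) : Prop :=
  ∀ A ∈ U, ∀ i j : ℕ, i < j → j ∈ A → i ∉ A → insert i (A.erase j) ∈ U

/-- the members avoiding `n` -/
def s0 (n : ℕ) (U : Finset (Finset ℕ)) : Finset (Finset ℕ) := U.filter (fun B => n ∉ B)

/-- the links at `n` -/
def s1 (n : ℕ) (U : Finset (Finset ℕ)) : Finset (Finset ℕ) :=
  (U.filter (fun B => n ∈ B)).image (fun B => B.erase n)

/-- the upper shadow in `range n` -/
def up (n : ℕ) (U : Finset (Finset ℕ)) : Finset (Finset ℕ) :=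
  U.biUnion (fun B => (range n \ B).image (fun i => insert i B))

theorem mem_s0 {n : ℕ} {U : Finset (Finset ℕ)} {B : Finset ℕ} :
    B ∈ s0 n U ↔ B ∈ U ∧ n ∉ B := mem_filter

theorem mem_s1 {n : ℕ} {U : Finset (Finset ℕ)} {B : Finset ℕ} :
    B ∈ s1 n U ↔ n ∉ B ∧ insert n B ∈ U := by
  unfold s1
  rw [mem_image]
  constructor
  · rintro ⟨A, hA, rfl⟩
    obtain ⟨h1, h2⟩ := mem_filter.1 hA
    exact ⟨notMem_erase n A, by rw [insert_erase h2]; exact h1⟩
  · rintro ⟨h1, h2⟩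
    exact ⟨insert n B, mem_filter.2 ⟨h2, mem_insert_self n B⟩, erase_insert h1⟩

theorem mem_up {n : ℕ} {U : Finset (Finset ℕ)} {C : Finset ℕ} :
    C ∈ up n U ↔ ∃ B ∈ U, ∃ i, i < n ∧ i ∉ B ∧ insert i B = C := by
  unfold up
  rw [mem_biUnion]
  constructor
  · rintro ⟨B, hB, h⟩
    obtain ⟨i, hi, rfl⟩ := mem_image.1 h
    obtain ⟨h1, h2⟩ := mem_sdiff.1 hi
    exact ⟨B, hB, i, mem_range.1 h1, h2, rfl⟩
  · rintro ⟨B, hB, i, h1, h2, rfl⟩
    exact ⟨B, hB, mem_image.2 ⟨i, mem_sdiff.2 ⟨mem_range.2 h1, h2⟩, rfl⟩⟩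

theorem card_s (n : ℕ) (U : Finset (Finset ℕ)) :
    (s0 n U).card + (s1 n U).card = U.card := by
  have h : (s1 n U).card = (U.filter (fun B => n ∈ B)).card := by
    unfold s1
    apply card_image_of_injOn
    intro A hA B hB hAB
    have h1 := (mem_filter.1 (mem_coe.1 hA)).2
    have h2 := (mem_filter.1 (mem_coe.1 hB)).2
    simp only at hAB
    rw [← insert_erase h1, ← insert_erase h2, hAB]
  rw [h]
  unfold s0
  have := card_filter_add_card_filter_not (s := U) (fun B => n ∈ B)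
  omega

theorem s0_mono {n : ℕ} {U V : Finset (Finset ℕ)} (h : U ⊆ V) : s0 n U ⊆ s0 n V := by
  intro A hA
  rw [mem_s0] at hA ⊢
  exact ⟨h hA.1, hA.2⟩

theorem s1_mono {n : ℕ} {U V : Finset (Finset ℕ)} (h : U ⊆ V) : s1 n U ⊆ s1 n V := by
  intro A hA
  rw [mem_s1] at hA ⊢
  exact ⟨hA.1, h hA.2⟩

theorem s0_sdiff (n : ℕ) (U P : Finset (Finset ℕ)) : s0 n (U \ P) = s0 n U \ s0 n P := by
  ext A
  simp only [mem_s0, mem_sdiff]
  tauto

theorem s1_sdiff (n : ℕ) (U P : Finset (Finset ℕ)) : s1 n (U \ P) = s1 n U \ s1 n P := by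
  ext A
  simp only [mem_s1, mem_sdiff]
  tauto

theorem Sz.mono {n r : ℕ} {U V : Finset (Finset ℕ)} (h : Sz n r V) (hUV : U ⊆ V) : Sz n r U :=
  fun B hB => h B (hUV hB)

theorem Sz.s0 {n r : ℕ} {U : Finset (Finset ℕ)} (h : Sz (n + 1) r U) : Sz n r (s0 n U) := by
  intro B hB
  rw [mem_s0] at hB
  obtain ⟨h1, h2⟩ := h B hB.1
  refine ⟨fun x hx => ?_, h2⟩
  have h3 := mem_range.1 (h1 hx)
  have h4 : x ≠ n := fun h => hB.2 (h ▸ hx)
  exact mem_range.2 (by omega)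

theorem Sz.s1 {n r : ℕ} {U : Finset (Finset ℕ)} (h : Sz (n + 1) r U) :
    Sz n (r - 1) (s1 n U) := by
  intro B hB
  rw [mem_s1] at hB
  obtain ⟨h1, h2⟩ := h _ hB.2
  rw [card_insert_of_notMem hB.1] at h2
  refine ⟨fun x hx => ?_, by omega⟩
  have h3 := mem_range.1 (h1 (mem_insert_of_mem hx))
  have h4 : x ≠ n := fun h => hB.1 (h ▸ hx)
  exact mem_range.2 (by omega)

theorem s1_empty {n : ℕ} {U : Finset (Finset ℕ)} (h : Sz (n + 1) 0 U) : s1 n U = ∅ := by
  rw [eq_empty_iff_forall_notMem]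
  intro B hB
  rw [mem_s1] at hB
  have := (h _ hB.2).2
  rw [card_insert_of_notMem hB.1] at this
  omega

theorem Shf.s0 {n r : ℕ} {U : Finset (Finset ℕ)} (hS : Sz (n + 1) r U) (h : Shf U) :
    Shf (s0 n U) := by
  intro A hA i j hij hj hi
  have hA' := mem_s0.1 hA
  have hjn := mem_range.1 ((hS.s0 A hA).1 hj)
  refine mem_s0.2 ⟨h A hA'.1 i j hij hj hi, fun hn => ?_⟩
  rcases mem_insert.1 hn with h1 | h1
  · omega
  · exact hA'.2 (mem_of_mem_erase h1)

theorem Shf.s1 {n r : ℕ} {U : Finset (Finset ℕ)} (hS : Sz (n + 1) r U) (h : Shf U) :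
    Shf (s1 n U) := by
  intro A hA i j hij hj hi
  have hA' := mem_s1.1 hA
  have hjn := mem_range.1 ((hS.s1 A hA).1 hj)
  refine mem_s1.2 ⟨fun hn => ?_, ?_⟩
  · rcases mem_insert.1 hn with h1 | h1
    · omega
    · exact hA'.1 (mem_of_mem_erase h1)
  · have h1 : i ∉ insert n A := by
      rw [mem_insert]
      rintro (h2 | h2)
      · omega
      · exact hi h2
    have h2 := h _ hA'.2 i j hij (mem_insert_of_mem hj) h1
    have h3 : insert i ((insert n A).erase j) = insert n (insert i (A.erase j)) := by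
      rw [erase_insert_of_ne (by omega : n ≠ j), Finset.insert_comm]
    rwa [h3] at h2

/-- the upper shadow of the link lies in the section -/
theorem up_s1 {n r : ℕ} {U : Finset (Finset ℕ)} (_hS : Sz (n + 1) r U) (h : Shf U) :
    up n (s1 n U) ⊆ s0 n U := by
  intro C hC
  obtain ⟨B, hB, i, hi, hiB, rfl⟩ := mem_up.1 hC
  rw [mem_s1] at hB
  have h1 : i ∉ insert n B := by
    rw [mem_insert]
    rintro (h2 | h2)
    · omega
    · exact hiB h2
  have h2 := h _ hB.2 i n hi (mem_insert_self n B) h1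
  rw [erase_insert hB.1] at h2
  refine mem_s0.2 ⟨h2, fun hn => ?_⟩
  rcases mem_insert.1 hn with h3 | h3
  · omega
  · exact hB.1 h3

theorem up_s0_sub (n : ℕ) (U : Finset (Finset ℕ)) : up n (s0 n U) ⊆ s0 n (up (n + 1) U) := by
  intro C hC
  obtain ⟨B, hB, i, hi, hiB, rfl⟩ := mem_up.1 hC
  rw [mem_s0] at hB
  refine mem_s0.2 ⟨mem_up.2 ⟨B, hB.1, i, by omega, hiB, rfl⟩, fun hn => ?_⟩
  rcases mem_insert.1 hn with h3 | h3
  · omega
  · exact hB.2 h3

theorem s0_sub_s1_up (n : ℕ) (U : Finset (Finset ℕ)) : s0 n U ⊆ s1 n (up (n + 1) U) := by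
  intro B hB
  rw [mem_s0] at hB
  exact mem_s1.2 ⟨hB.2, mem_up.2 ⟨B, hB.1, n, by omega, hB.2, rfl⟩⟩

end Pool.Agent.RKS
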