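import Pool.Agent.RKS.Shift

/-! # MP_f155e9_co: the shadow of a family with a large intersecting subfamily

`shadow_ge_of_intersecting`: `U` a family of `r`-subsets of an `n`-set, `n ≥ 2 r`, `P ⊆ U`
intersecting. Then `|∂U| ≥ |U| - 2 (n - 2 r + 1) / (n - r + 1) * |U \ P|`. -/

set_option autoImplicit false

namespace Pool.Agent.RKS

open Finset
open scoped FinsetFamily

variable {α : Type*} [Fintype α] [DecidableEq α]

/-- RK, multiplied out -/
theorem shadow_mul {r : ℕ} (hr : 2 * r ≤ Fintype.card α) {U P : Finset (Finset α)}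
    (hS : ∀ A ∈ U, A.card = r) (hPU : P ⊆ U) (hint : ∀ A ∈ P, ∀ B ∈ P, (A ∩ B).Nonempty) :
    ((Fintype.card α : ℝ) - r + 1) * U.card ≤ ((Fintype.card α : ℝ) - r + 1) * (∂ U).card +
      2 * ((Fintype.card α : ℝ) - 2 * r + 1) * (U \ P).card := by
  classical
  let f : α ↪ ℕ := (Fintype.equivFin α).toEmbedding.trans Fin.valEmbedding
  let g : Finset α ↪ Finset ℕ := (Finset.mapEmbedding f).toEmbedding
  have hg : ∀ A : Finset α, g A = A.map f := fun A => rfl
  have h := shadow_range (n := Fintype.card α) hr (U := U.map g) (P := P.map g)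
    (by
      intro A hA
      obtain ⟨B, hB, rfl⟩ := mem_map.1 hA
      rw [hg, card_map]
      refine ⟨fun x hx => ?_, hS B hB⟩
      obtain ⟨a, _, rfl⟩ := mem_map.1 hx
      exact mem_range.2 (Fintype.equivFin α a).isLt)
    (map_subset_map.2 hPU)
    (by
      intro A' hA' B' hB'
      obtain ⟨A, hA, rfl⟩ := mem_map.1 hA'
      obtain ⟨B, hB, rfl⟩ := mem_map.1 hB'
      rw [hg, hg, ← map_inter]
      exact (hint A hA B hB).map)
  have h1 : (∂ (U.map g)).card ≤ (∂ U).card := by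
    rw [← card_map (f := g) (s := ∂ U)]
    refine card_le_card fun X hX => ?_
    obtain ⟨A', hA', a', ha', rfl⟩ := mem_shadow_iff.1 hX
    obtain ⟨A, hA, rfl⟩ := mem_map.1 hA'
    rw [hg] at ha'
    obtain ⟨a, ha, rfl⟩ := mem_map.1 ha'
    refine mem_map.2 ⟨A.erase a, mem_shadow_iff.2 ⟨A, hA, a, ha, rfl⟩, ?_⟩
    rw [hg, hg, map_erase]
  have h2 : (U.map g \ P.map g).card = (U \ P).card := by
    rw [← Finset.map_sdiff, card_map]
  rw [h2, card_map] at h
  have h1' : ((∂ (U.map g)).card : ℝ) ≤ (∂ U).card := by exact_mod_cast h1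
  have hr' : 2 * (r : ℝ) ≤ Fintype.card α := by exact_mod_cast hr
  have hr0 : (0 : ℝ) ≤ r := Nat.cast_nonneg r
  nlinarith [mul_le_mul_of_nonneg_left h1'
    (by linarith : (0 : ℝ) ≤ (Fintype.card α : ℝ) - r + 1)]

/-- RK -/
theorem shadow_ge_of_intersecting {r : ℕ} (hr : 2 * r ≤ Fintype.card α)
    {U P : Finset (Finset α)} (hS : ∀ A ∈ U, A.card = r) (hPU : P ⊆ U)
    (hint : ∀ A ∈ P, ∀ B ∈ P, (A ∩ B).Nonempty) :
    (U.card : ℝ) - 2 * (((Fintype.card α : ℝ) - 2 * r + 1) / ((Fintype.card α : ℝ) - r + 1)) *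
      (U \ P).card ≤ (∂ U).card := by
  have h := shadow_mul hr hS hPU hint
  have hr' : 2 * (r : ℝ) ≤ Fintype.card α := by exact_mod_cast hr
  have hr0 : (0 : ℝ) ≤ r := Nat.cast_nonneg r
  have hx : (0 : ℝ) < (Fintype.card α : ℝ) - r + 1 := by linarith
  refine le_of_mul_le_mul_left ?_ hx
  have h1 : ((Fintype.card α : ℝ) - r + 1) * ((U.card : ℝ) -
      2 * (((Fintype.card α : ℝ) - 2 * r + 1) / ((Fintype.card α : ℝ) - r + 1)) *
      (U \ P).card) = ((Fintype.card α : ℝ) - r + 1) * U.card -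
      2 * ((Fintype.card α : ℝ) - 2 * r + 1) * (U \ P).card := by
    field_simp
  rw [h1]
  linarith

end Pool.Agent.RKS
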