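import Pool.Agent.RKS.Defs

/-! # MP_f155e9_co: the number of self-reflected members

`ic n r U` counts the members `B` of `U` whose reflection up to the last zero of the path of `B`
lies in `U` (defined by recursion on `n`, `n ≥ 2 r`). -/

set_option autoImplicit false

namespace Pool.Agent.RKS

open Finset

/-- the members of `U` whose complement in `range n` lies in `U` -/
def cp (n : ℕ) (U : Finset (Finset ℕ)) : Finset (Finset ℕ) := U.filter (fun B => range n \ B ∈ U)

/-- the number of self-reflected members -/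
def ic : ℕ → ℕ → Finset (Finset ℕ) → ℕ
  | 0, _, U => (cp 0 U).card
  | n + 1, r, U => if n + 1 = 2 * r then (cp (n + 1) U).card
      else ic n r (s0 n U) + ic n (r - 1) (s1 n U)

theorem ic_succ {n r : ℕ} (h : n + 1 ≠ 2 * r) (U : Finset (Finset ℕ)) :
    ic (n + 1) r U = ic n r (s0 n U) + ic n (r - 1) (s1 n U) := by
  rw [ic, if_neg h]

theorem ic_mid {n r : ℕ} (h : n = 2 * r) (U : Finset (Finset ℕ)) :
    ic n r U = (cp n U).card := by
  cases n with
  | zero => rfl
  | succ n => rw [ic, if_pos h]

theorem mem_cp {n : ℕ} {U : Finset (Finset ℕ)} {B : Finset ℕ} :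
    B ∈ cp n U ↔ B ∈ U ∧ range n \ B ∈ U := mem_filter

theorem ic_mono : ∀ (n r : ℕ) (U V : Finset (Finset ℕ)), U ⊆ V → ic n r U ≤ ic n r V := by
  intro n
  induction n with
  | zero =>
    intro r U V h
    refine card_le_card fun B hB => ?_
    rw [mem_cp] at hB ⊢
    exact ⟨h hB.1, h hB.2⟩
  | succ n ih =>
    intro r U V h
    by_cases hr : n + 1 = 2 * r
    · rw [ic_mid hr, ic_mid hr]
      refine card_le_card fun B hB => ?_
      rw [mem_cp] at hB ⊢
      exact ⟨h hB.1, h hB.2⟩
    · rw [ic_succ hr, ic_succ hr]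
      exact add_le_add (ih _ _ _ (s0_mono h)) (ih _ _ _ (s1_mono h))

theorem ic_le_card : ∀ (n r : ℕ) (U : Finset (Finset ℕ)), ic n r U ≤ U.card := by
  intro n
  induction n with
  | zero =>
    intro r U
    exact card_le_card (filter_subset _ _)
  | succ n ih =>
    intro r U
    by_cases hr : n + 1 = 2 * r
    · rw [ic_mid hr]
      exact card_le_card (filter_subset _ _)
    · rw [ic_succ hr, ← card_s n U]
      exact add_le_add (ih _ _) (ih _ _)

theorem ic_empty (n r : ℕ) : ic n r ∅ = 0 := by
  have := ic_le_card n r ∅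
  rw [card_empty] at this
  omega

/-- a self-reflected member is disjoint from some member -/
theorem ic_le_disj : ∀ (n r : ℕ) (U : Finset (Finset ℕ)), Sz n r U → 2 * r ≤ n → Shf U →
    ic n r U ≤ (U.filter (fun A => ∃ B ∈ U, Disjoint A B)).card := by
  intro n
  induction n with
  | zero =>
    intro r U hS hr hU
    refine card_le_card fun B hB => ?_
    rw [mem_cp] at hB
    exact mem_filter.2 ⟨hB.1, _, hB.2, disjoint_sdiff⟩
  | succ n ih =>
    intro r U hS hr hU
    by_cases h2 : n + 1 = 2 * r
    · rw [ic_mid h2]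
      refine card_le_card fun B hB => ?_
      rw [mem_cp] at hB
      exact mem_filter.2 ⟨hB.1, _, hB.2, disjoint_sdiff⟩
    · rcases Nat.eq_zero_or_pos r with hr0 | hr0
      · subst hr0
        have h3 : U.filter (fun A => ∃ B ∈ U, Disjoint A B) = U := by
          refine filter_true_of_mem fun A hA => ⟨A, hA, ?_⟩
          rw [card_eq_zero.1 (hS A hA).2]
          exact disjoint_empty_left _
        rw [h3]
        exact ic_le_card _ _ _
      · rw [ic_succ h2, ← card_s n (U.filter (fun A => ∃ B ∈ U, Disjoint A B))]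
        refine add_le_add ((ih r (s0 n U) hS.s0 (by omega) (hU.s0 hS)).trans (card_le_card ?_))
          ((ih (r - 1) (s1 n U) hS.s1 (by omega) (hU.s1 hS)).trans (card_le_card ?_))
        · intro A hA
          obtain ⟨hA, B, hB, hAB⟩ := mem_filter.1 hA
          rw [mem_s0] at hA hB
          exact mem_s0.2 ⟨mem_filter.2 ⟨hA.1, B, hB.1, hAB⟩, hA.2⟩
        · intro A hA
          obtain ⟨hA, B, hB, hAB⟩ := mem_filter.1 hA
          have hcA := hS.s1 A hA
          have hcB := hS.s1 B hB
          have h3 : (range n \ (A ∪ B)).Nonempty := by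
            rw [← card_pos]
            have h4 := le_card_sdiff (A ∪ B) (range n)
            have h5 := card_union_le A B
            rw [card_range] at h4
            omega
          obtain ⟨i, hi⟩ := h3
          rw [mem_sdiff, mem_range, mem_union, not_or] at hi
          have h4 : insert i B ∈ s0 n U :=
            up_s1 hS hU (mem_up.2 ⟨B, hB, i, hi.1, hi.2.2, rfl⟩)
          rw [mem_s0] at h4
          rw [mem_s1] at hA
          refine mem_s1.2 ⟨hA.1, mem_filter.2 ⟨hA.2, insert i B, h4.1, ?_⟩⟩
          rw [disjoint_insert_left]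
          refine ⟨h4.2, ?_⟩
          rw [disjoint_insert_right]
          exact ⟨hi.2.1, hAB⟩

/-- an intersecting family leaves out at least half of the self-reflected members -/
theorem ic_le_two_mul : ∀ (n r : ℕ) (U P : Finset (Finset ℕ)), Sz n r U → 2 * r ≤ n → P ⊆ U →
    Shf P → (∀ A ∈ P, ∀ B ∈ P, (A ∩ B).Nonempty) → ic n r U ≤ 2 * (U \ P).card := by
  have base : ∀ (n r : ℕ) (U P : Finset (Finset ℕ)), Sz n r U → P ⊆ U →
      (∀ A ∈ P, ∀ B ∈ P, (A ∩ B).Nonempty) → (cp n U).card ≤ 2 * (U \ P).card := by
    intro n r U P hS hPU hint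
    rw [← card_filter_add_card_filter_not (s := cp n U) (fun B => B ∈ P), two_mul]
    refine add_le_add ?_ ?_
    · refine card_le_card_of_injOn (fun B => range n \ B) ?_ ?_
      · intro B hB
        obtain ⟨h1, h2⟩ := mem_filter.1 (mem_coe.1 hB)
        rw [mem_cp] at h1
        refine mem_coe.2 (mem_sdiff.2 ⟨h1.2, fun h3 => ?_⟩)
        obtain ⟨x, hx⟩ := hint _ h2 _ h3
        rw [mem_inter, mem_sdiff] at hx
        exact hx.2.2 hx.1
      · intro A hA B hB hAB
        have h1 := (hS A (mem_cp.1 (mem_filter.1 (mem_coe.1 hA)).1).1).1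
        have h2 := (hS B (mem_cp.1 (mem_filter.1 (mem_coe.1 hB)).1).1).1
        simp only at hAB
        rw [← Finset.sdiff_sdiff_eq_self h1, ← Finset.sdiff_sdiff_eq_self h2, hAB]
    · refine card_le_card fun B hB => ?_
      obtain ⟨h1, h2⟩ := mem_filter.1 hB
      exact mem_sdiff.2 ⟨(mem_cp.1 h1).1, h2⟩
  intro n
  induction n with
  | zero =>
    intro r U P hS hr hPU _ hint
    exact base 0 r U P hS hPU hint
  | succ n ih =>
    intro r U P hS hr hPU hP hint
    by_cases h2 : n + 1 = 2 * r
    · rw [ic_mid h2]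
      exact base _ r U P hS hPU hint
    · rw [ic_succ h2, ← card_s n (U \ P), s0_sdiff, s1_sdiff, mul_add]
      have hSP : Sz (n + 1) r P := hS.mono hPU
      refine add_le_add (ih r _ _ hS.s0 (by omega) (s0_mono hPU) (hP.s0 hSP) ?_)
        (ih (r - 1) _ _ hS.s1 (by omega) (s1_mono hPU) (hP.s1 hSP) ?_)
      · intro A hA B hB
        exact hint A (mem_s0.1 hA).1 B (mem_s0.1 hB).1
      · intro A hA B hB
        have hcA := hSP.s1 A hA
        have hcB := hSP.s1 B hB
        have hr0 : 0 < r := by
          have := (hSP _ (mem_s1.1 hA).2).2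
          rw [card_insert_of_notMem (mem_s1.1 hA).1] at this
          omega
        by_contra hne
        rw [not_nonempty_iff_eq_empty] at hne
        have h3 : (range n \ (A ∪ B)).Nonempty := by
          rw [← card_pos]
          have h4 := le_card_sdiff (A ∪ B) (range n)
          have h5 := card_union_le A B
          rw [card_range] at h4
          omega
        obtain ⟨i, hi⟩ := h3
        rw [mem_sdiff, mem_range, mem_union, not_or] at hi
        have h4 : insert i B ∈ s0 n P :=
          up_s1 hSP hP (mem_up.2 ⟨B, hB, i, hi.1, hi.2.2, rfl⟩)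
        rw [mem_s0] at h4
        obtain ⟨x, hx⟩ := hint _ (mem_s1.1 hA).2 _ h4.1
        rw [mem_inter, mem_insert, mem_insert] at hx
        rcases hx with ⟨rfl | h5, h6 | h6⟩
        · omega
        · exact h4.2 (mem_insert_of_mem h6)
        · exact hi.2.1 (h6 ▸ h5)
        · have : x ∈ A ∩ B := mem_inter.2 ⟨h5, h6⟩
          rw [hne] at this
          exact notMem_empty x this

/-- the middle level of `range (2 s)` -/
theorem two_mul_ic_le {m s : ℕ} (hm : m + 1 = 2 * s) {V : Finset (Finset ℕ)}
    (hS : Sz (m + 1) (s - 1) V) (hV : Shf V) :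
    2 * ic m (s - 1) (s0 m V) ≤ ic (m + 1) s (up (m + 1) V) := by
  rw [ic_mid hm, two_mul]
  have h0 := ic_le_disj m (s - 1) (s0 m V) hS.s0 (by omega) (hV.s0 hS)
  set W := up (m + 1) V with hW
  set D := (s0 m V).filter (fun A => ∃ B ∈ s0 m V, Disjoint A B) with hD
  -- for `A` in `D` both `range m \ A` and `insert m A` lie in `W`
  have hin1 : ∀ A ∈ D, insert m A ∈ W := by
    intro A hA
    have h1 := mem_s0.1 (mem_filter.1 hA).1
    exact mem_up.2 ⟨A, h1.1, m, by omega, h1.2, rfl⟩
  have hAr : ∀ A ∈ D, A ⊆ range m ∧ A.card = s - 1 := fun A hA => hS.s0 A (mem_filter.1 hA).1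
  have hin2 : ∀ A ∈ D, range m \ A ∈ W := by
    intro A hA
    obtain ⟨h1, B, hB, hAB⟩ := mem_filter.1 hA
    have h2 := hS.s0 B hB
    have h3 := hAr A hA
    have hBs : B ⊆ range m \ A := fun x hx =>
      mem_sdiff.2 ⟨h2.1 hx, fun h => disjoint_left.1 hAB h hx⟩
    have h4 : (range m \ A).card = m - (s - 1) := by
      rw [card_sdiff_of_subset h3.1, card_range, h3.2]
    have h5 : ∃ a, a ∉ B ∧ insert a B = range m \ A := by
      rw [exists_eq_insert_iff]
      exact ⟨hBs, by omega⟩
    obtain ⟨a, ha, hins⟩ := h5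
    have ham : a < m := by
      have : a ∈ range m \ A := by
        rw [← hins]
        exact mem_insert_self a B
      exact mem_range.1 (mem_sdiff.1 this).1
    exact mem_up.2 ⟨B, (mem_s0.1 hB).1, a, by omega, ha, hins⟩
  have hc1 : ∀ A : Finset ℕ, A ⊆ range m → range (m + 1) \ (range m \ A) = insert m A := by
    intro A hA
    ext x
    simp only [mem_sdiff, mem_range, mem_insert, not_and, not_not]
    constructor
    · rintro ⟨h1, h2⟩
      by_cases h3 : x = m
      · exact Or.inl h3
      · exact Or.inr (h2 (by omega))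
    · rintro (rfl | h1)
      · exact ⟨by omega, fun h => absurd h (lt_irrefl _)⟩
      · have := mem_range.1 (hA h1)
        exact ⟨by omega, fun _ => h1⟩
  have hc2 : ∀ A : Finset ℕ, A ⊆ range m → range (m + 1) \ (insert m A) = range m \ A := by
    intro A hA
    ext x
    simp only [mem_sdiff, mem_range, mem_insert, not_or]
    constructor
    · rintro ⟨h1, h2, h3⟩
      exact ⟨by omega, h3⟩
    · rintro ⟨h1, h2⟩
      exact ⟨by omega, by omega, h2⟩
  have hmA : ∀ A ∈ D, m ∉ A := fun A hA h => by
    have := mem_range.1 ((hAr A hA).1 h)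
    omega
  have hd : Disjoint (D.image (fun A => range m \ A)) (D.image (fun A => insert m A)) := by
    rw [disjoint_left]
    intro X hX hX2
    obtain ⟨A, hA, rfl⟩ := mem_image.1 hX
    obtain ⟨B, hB, h⟩ := mem_image.1 hX2
    have h1 : m ∈ range m \ A := by
      rw [← h]
      exact mem_insert_self m B
    have := mem_range.1 (mem_sdiff.1 h1).1
    omega
  have hsub : D.image (fun A => range m \ A) ∪ D.image (fun A => insert m A) ⊆ cp (m + 1) W := by
    intro X hX
    rcases mem_union.1 hX with hX | hX
    · obtain ⟨A, hA, rfl⟩ := mem_image.1 hX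
      refine mem_cp.2 ⟨hin2 A hA, ?_⟩
      rw [hc1 A (hAr A hA).1]
      exact hin1 A hA
    · obtain ⟨A, hA, rfl⟩ := mem_image.1 hX
      refine mem_cp.2 ⟨hin1 A hA, ?_⟩
      rw [hc2 A (hAr A hA).1]
      exact hin2 A hA
  have h1 := card_le_card hsub
  rw [card_union_of_disjoint hd, card_image_of_injOn, card_image_of_injOn] at h1
  · omega
  · intro A hA B hB hAB
    simp only at hAB
    rw [← erase_insert (hmA A (mem_coe.1 hA)), ← erase_insert (hmA B (mem_coe.1 hB)), hAB]
  · intro A hA B hB hAB
    simp only at hAB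
    rw [← Finset.sdiff_sdiff_eq_self (hAr A (mem_coe.1 hA)).1,
      ← Finset.sdiff_sdiff_eq_self (hAr B (mem_coe.1 hB)).1, hAB]

/-- upper shadows increase the density of the self-reflected members -/
theorem ic_up : ∀ (m t : ℕ) (V : Finset (Finset ℕ)), Sz m t V → 2 * t + 2 ≤ m → Shf V →
    m.choose (t + 1) * ic m t V ≤ m.choose t * ic m (t + 1) (up m V) := by
  intro m
  induction m with
  | zero =>
    intro t V _ h _
    omega
  | succ m ih =>
    intro t V hS h hV
    -- the estimate for the link
    have h1 : m.choose t * ic m (t - 1) (s1 m V) ≤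
        (if t = 0 then 0 else m.choose (t - 1)) * ic m t (s0 m V) := by
      rcases Nat.eq_zero_or_pos t with ht | ht
      · subst ht
        rw [s1_empty hS, ic_empty]
        simp
      · rw [if_neg (by omega)]
        have h2 := ih (t - 1) (s1 m V) hS.s1 (by omega) (hV.s1 hS)
        have h3 : t - 1 + 1 = t := by omega
        rw [h3] at h2
        exact h2.trans (Nat.mul_le_mul_left _ (ic_mono _ _ _ _ (up_s1 hS hV)))
    have hpas : (m + 1).choose t = (if t = 0 then 0 else m.choose (t - 1)) + m.choose t := by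
      rcases Nat.eq_zero_or_pos t with ht | ht
      · subst ht
        simp
      · rw [if_neg (by omega)]
        obtain ⟨u, rfl⟩ : ∃ u, t = u + 1 := ⟨t - 1, by omega⟩
        rw [Nat.choose_succ_succ, Nat.add_sub_cancel]
    have hpas2 : (m + 1).choose (t + 1) = m.choose t + m.choose (t + 1) := Nat.choose_succ_succ _ _
    set a := (if t = 0 then 0 else m.choose (t - 1)) with ha
    have hb : 0 < m.choose t := Nat.choose_pos (by omega)
    rw [ic_succ (by omega : m + 1 ≠ 2 * t) V]
    set x0 := ic m t (s0 m V) with hx0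
    set x1 := ic m (t - 1) (s1 m V) with hx1
    by_cases h2 : m + 1 = 2 * (t + 1)
    · have h3 := two_mul_ic_le (V := V) h2 (by simpa using hS) hV
      rw [Nat.add_sub_cancel] at h3
      have h4 : m.choose (t + 1) = m.choose t := by
        apply Nat.choose_symm_of_eq_add
        omega
      rw [hpas, hpas2, h4]
      set z := ic (m + 1) (t + 1) (up (m + 1) V) with hz
      have h5 : (m.choose t + m.choose t) * (x0 + x1) ≤ 2 * (a + m.choose t) * x0 := by
        nlinarith [h1]
      calc (m.choose t + m.choose t) * (x0 + x1) ≤ 2 * (a + m.choose t) * x0 := h5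
        _ = (a + m.choose t) * (2 * x0) := by ring
        _ ≤ (a + m.choose t) * z := Nat.mul_le_mul_left _ h3
    · rw [ic_succ h2, Nat.add_sub_cancel]
      have h3 := ih t (s0 m V) hS.s0 (by omega) (hV.s0 hS)
      have h4 := ic_mono m (t + 1) _ _ (up_s0_sub m V)
      have h5 := ic_mono m t _ _ (s0_sub_s1_up m V)
      rw [hpas, hpas2]
      set y0 := ic m (t + 1) (s0 m (up (m + 1) V)) with hy0
      set y1 := ic m t (s1 m (up (m + 1) V)) with hy1
      have h6 : m.choose (t + 1) * x0 ≤ m.choose t * y0 := h3.trans (Nat.mul_le_mul_left _ h4)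
      refine Nat.le_of_mul_le_mul_left ?_ hb
      calc m.choose t * ((m.choose t + m.choose (t + 1)) * (x0 + x1))
          = (m.choose t + m.choose (t + 1)) * (m.choose t * x0 + m.choose t * x1) := by ring
        _ ≤ (m.choose t + m.choose (t + 1)) * (m.choose t * x0 + a * x0) :=
            Nat.mul_le_mul_left _ (Nat.add_le_add_left h1 _)
        _ = (a + m.choose t) * (m.choose (t + 1) * x0 + m.choose t * x0) := by ring
        _ ≤ (a + m.choose t) * (m.choose t * y0 + m.choose t * y1) :=
            Nat.mul_le_mul_left _ (add_le_add h6 (Nat.mul_le_mul_left _ h5))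
        _ = m.choose t * ((a + m.choose t) * (y0 + y1)) := by ring

end Pool.Agent.RKS
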