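import Pool.Agent.RKS.Ic

/-! # MP_f155e9_co: the shadow of a shifted family, in terms of its self-reflected members -/

set_option autoImplicit false

namespace Pool.Agent.RKS

open Finset
open scoped FinsetFamily

theorem shadow_s (n : ℕ) (U : Finset (Finset ℕ)) :
    (∂ (s0 n U)).card + (∂ (s1 n U)).card ≤ (∂ U).card := by
  rw [← card_s n (∂ U)]
  refine add_le_add (card_le_card fun X hX => ?_) (card_le_card fun X hX => ?_)
  · obtain ⟨A, hA, a, ha, rfl⟩ := mem_shadow_iff.1 hX
    rw [mem_s0] at hA
    exact mem_s0.2 ⟨mem_shadow_iff.2 ⟨A, hA.1, a, ha, rfl⟩, fun h => hA.2 (mem_of_mem_erase h)⟩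
  · obtain ⟨A, hA, a, ha, rfl⟩ := mem_shadow_iff.1 hX
    rw [mem_s1] at hA
    refine mem_s1.2 ⟨fun h => hA.1 (mem_of_mem_erase h), mem_shadow_iff.2
      ⟨insert n A, hA.2, a, mem_insert_of_mem ha, ?_⟩⟩
    rw [erase_insert_of_ne]
    rintro rfl
    exact hA.1 ha

/-- local LYM at the level just above the middle -/
theorem card_le_shadow {n r : ℕ} (hn : n + 1 = 2 * r) {U : Finset (Finset ℕ)} (hS : Sz n r U) :
    U.card ≤ (∂ U).card := by
  have hr : 0 < r := by omega
  have h1 : ∀ A ∈ U, r ≤ (filter (fun X => X ⊆ A) (∂ U)).card := by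
    intro A hA
    rw [← (hS A hA).2, ← card_image_of_injOn (s := A) (f := fun a => A.erase a)]
    · refine card_le_card fun X hX => ?_
      obtain ⟨a, ha, rfl⟩ := mem_image.1 hX
      exact mem_filter.2 ⟨mem_shadow_iff.2 ⟨A, hA, a, ha, rfl⟩, erase_subset _ _⟩
    · intro a ha b hb hab
      simp only at hab
      by_contra hne
      have : a ∈ A.erase b := mem_erase.2 ⟨hne, ha⟩
      rw [← hab] at this
      exact notMem_erase a A this
  have h2 : ∀ X ∈ ∂ U, (filter (fun A => X ⊆ A) U).card ≤ r := by
    intro X hX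
    obtain ⟨B, hB, b, hb, rfl⟩ := mem_shadow_iff.1 hX
    have hXc : (B.erase b).card = r - 1 := by rw [card_erase_of_mem hb, (hS B hB).2]
    have hXs : B.erase b ⊆ range n := (erase_subset _ _).trans (hS B hB).1
    have h3 : (range n \ B.erase b).card = r := by
      rw [card_sdiff_of_subset hXs, card_range, hXc]
      omega
    rw [← h3]
    refine card_le_card_of_surjOn (fun i => insert i (B.erase b)) ?_
    intro A hA
    obtain ⟨hA1, hA2⟩ := mem_filter.1 (mem_coe.1 hA)
    have h4 : ∃ a, a ∉ B.erase b ∧ insert a (B.erase b) = A := by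
      rw [exists_eq_insert_iff]
      exact ⟨hA2, by rw [hXc, (hS A hA1).2]; omega⟩
    obtain ⟨a, ha, hins⟩ := h4
    refine ⟨a, mem_coe.2 (mem_sdiff.2 ⟨?_, ha⟩), hins⟩
    refine (hS A hA1).1 ?_
    rw [← hins]
    exact mem_insert_self _ _
  have h3 := card_mul_le_card_mul (s := U) (t := ∂ U) (fun (A : Finset ℕ) (X : Finset ℕ) => X ⊆ A)
    (m := r) (n := r) (fun A hA => by unfold bipartiteAbove; exact h1 A hA)
    (fun X hX => by unfold bipartiteBelow; exact h2 X hX)
  exact Nat.le_of_mul_le_mul_right h3 hr

/-- Theorem E: the shadow of a shifted family -/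
theorem shadow_ge : ∀ (n r : ℕ) (U : Finset (Finset ℕ)), Sz n r U → 2 * r ≤ n → Shf U →
    ((n : ℝ) - r + 1) * U.card ≤ ((n : ℝ) - r + 1) * (∂ U).card + ((n : ℝ) - 2 * r + 1) *
      ic n r U := by
  have hz : ∀ (n : ℕ) (U : Finset (Finset ℕ)), Sz n 0 U → U.card ≤ ic n 0 U := by
    intro n
    induction n with
    | zero =>
      intro U hS
      refine card_le_card fun B hB => ?_
      rw [mem_cp]
      have h0 := card_eq_zero.1 (hS B hB).2
      subst h0
      exact ⟨hB, hB⟩
    | succ n ih =>
      intro U hS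
      rw [ic_succ (by omega), ← card_s n U, s1_empty hS, card_empty, add_zero]
      exact (ih _ hS.s0).trans (Nat.le_add_right _ _)
  intro n
  induction n with
  | zero =>
    intro r U hS hr _
    have hr0 : r = 0 := by omega
    subst hr0
    have h1 : (U.card : ℝ) ≤ ic 0 0 U := by exact_mod_cast hz 0 U hS
    have h2 : (0 : ℝ) ≤ (∂ U).card := Nat.cast_nonneg _
    push_cast
    linarith
  | succ n ih =>
    intro r U hS hr hU
    rcases Nat.eq_zero_or_pos r with hr0 | hr0
    · subst hr0
      have h1 : (U.card : ℝ) ≤ ic (n + 1) 0 U := by exact_mod_cast hz (n + 1) U hS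
      have h2 : (0 : ℝ) ≤ (∂ U).card := Nat.cast_nonneg _
      have h3 : (0 : ℝ) ≤ n := Nat.cast_nonneg _
      push_cast
      nlinarith
    obtain ⟨t, rfl⟩ : ∃ t, r = t + 1 := ⟨r - 1, by omega⟩
    have hsh : ((∂ (s0 n U)).card : ℝ) + (∂ (s1 n U)).card ≤ (∂ U).card := by
      exact_mod_cast shadow_s n U
    have hcd : ((s0 n U).card : ℝ) + (s1 n U).card = U.card := by
      exact_mod_cast card_s n U
    have hs1 : Sz n t (s1 n U) := by simpa using hS.s1
    have h1 := ih t (s1 n U) hs1 (by omega) (hU.s1 hS)
    have hnt : ((t : ℝ) + 1) * 2 ≤ n + 1 := by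
      have : (t + 1) * 2 ≤ n + 1 := by omega
      exact_mod_cast this
    by_cases h2 : n + 1 = 2 * (t + 1)
    · -- the middle level
      have h3 := card_le_shadow h2 hS.s0
      have h4 : 2 * ic n t (s1 n U) ≤ ic (n + 1) (t + 1) U := by
        rw [ic_mid h2]
        have h5 := ic_le_disj n t (s1 n U) hs1 (by omega) (hU.s1 hS)
        set D := (s1 n U).filter (fun A => ∃ B ∈ s1 n U, Disjoint A B) with hD
        have hAr : ∀ A ∈ D, A ⊆ range n ∧ A.card = t := fun A hA => hs1 A (mem_filter.1 hA).1
        have hin1 : ∀ A ∈ D, insert n A ∈ U := fun A hA => (mem_s1.1 (mem_filter.1 hA).1).2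
        have hmA : ∀ A ∈ D, n ∉ A := fun A hA => (mem_s1.1 (mem_filter.1 hA).1).1
        have hin2 : ∀ A ∈ D, range n \ A ∈ s0 n U := by
          intro A hA
          obtain ⟨h1, B, hB, hAB⟩ := mem_filter.1 hA
          have h2' := hs1 B hB
          have h3 := hAr A hA
          have hBs : B ⊆ range n \ A := fun x hx =>
            mem_sdiff.2 ⟨h2'.1 hx, fun h => disjoint_left.1 hAB h hx⟩
          have h4 : (range n \ A).card = n - t := by
            rw [card_sdiff_of_subset h3.1, card_range, h3.2]
          have h5 : ∃ a, a ∉ B ∧ insert a B = range n \ A := by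
            rw [exists_eq_insert_iff]
            exact ⟨hBs, by omega⟩
          obtain ⟨a, ha, hins⟩ := h5
          have ham : a < n := by
            have : a ∈ range n \ A := by
              rw [← hins]
              exact mem_insert_self a B
            exact mem_range.1 (mem_sdiff.1 this).1
          exact up_s1 hS hU (mem_up.2 ⟨B, hB, a, ham, ha, hins⟩)
        have hc1 : ∀ A : Finset ℕ, A ⊆ range n →
            range (n + 1) \ (range n \ A) = insert n A := by
          intro A hA
          ext x
          simp only [mem_sdiff, mem_range, mem_insert, not_and, not_not]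
          constructor
          · rintro ⟨h1, h2⟩
            by_cases h3 : x = n
            · exact Or.inl h3
            · exact Or.inr (h2 (by omega))
          · rintro (rfl | h1)
            · exact ⟨by omega, fun h => absurd h (lt_irrefl _)⟩
            · have := mem_range.1 (hA h1)
              exact ⟨by omega, fun _ => h1⟩
        have hc2 : ∀ A : Finset ℕ, A ⊆ range n →
            range (n + 1) \ (insert n A) = range n \ A := by
          intro A hA
          ext x
          simp only [mem_sdiff, mem_range, mem_insert, not_or]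
          constructor
          · rintro ⟨h1, h2, h3⟩
            exact ⟨by omega, h3⟩
          · rintro ⟨h1, h2⟩
            exact ⟨by omega, by omega, h2⟩
        have hd : Disjoint (D.image (fun A => range n \ A)) (D.image (fun A => insert n A)) := by
          rw [disjoint_left]
          intro X hX hX2
          obtain ⟨A, hA, rfl⟩ := mem_image.1 hX
          obtain ⟨B, hB, h⟩ := mem_image.1 hX2
          have h1 : n ∈ range n \ A := by
            rw [← h]
            exact mem_insert_self n B
          have := mem_range.1 (mem_sdiff.1 h1).1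
          omega
        have hsub : D.image (fun A => range n \ A) ∪ D.image (fun A => insert n A) ⊆
            cp (n + 1) U := by
          intro X hX
          rcases mem_union.1 hX with hX | hX
          · obtain ⟨A, hA, rfl⟩ := mem_image.1 hX
            refine mem_cp.2 ⟨(mem_s0.1 (hin2 A hA)).1, ?_⟩
            rw [hc1 A (hAr A hA).1]
            exact hin1 A hA
          · obtain ⟨A, hA, rfl⟩ := mem_image.1 hX
            refine mem_cp.2 ⟨hin1 A hA, ?_⟩
            rw [hc2 A (hAr A hA).1]
            exact (mem_s0.1 (hin2 A hA)).1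
        have h6 := card_le_card hsub
        rw [card_union_of_disjoint hd, card_image_of_injOn, card_image_of_injOn] at h6
        · omega
        · intro A hA B hB hAB
          simp only at hAB
          rw [← erase_insert (hmA A (mem_coe.1 hA)), ← erase_insert (hmA B (mem_coe.1 hB)), hAB]
        · intro A hA B hB hAB
          simp only at hAB
          rw [← Finset.sdiff_sdiff_eq_self (hAr A (mem_coe.1 hA)).1,
            ← Finset.sdiff_sdiff_eq_self (hAr B (mem_coe.1 hB)).1, hAB]
      have h3' : ((s0 n U).card : ℝ) ≤ (∂ (s0 n U)).card := by exact_mod_cast h3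
      have h4' : 2 * (ic n t (s1 n U) : ℝ) ≤ ic (n + 1) (t + 1) U := by exact_mod_cast h4
      have hn' : (n : ℝ) + 1 = 2 * (t + 1) := by exact_mod_cast h2
      have hn2 : (n : ℝ) = 2 * t + 1 := by linarith
      rw [hn2] at h1
      push_cast
      rw [hn2, ← hcd]
      have ht : (0 : ℝ) ≤ t := Nat.cast_nonneg t
      nlinarith
    · have h3 := ih (t + 1) (s0 n U) hS.s0 (by omega) (hU.s0 hS)
      rw [ic_succ h2, Nat.add_sub_cancel]
      have h4 := ic_up n t (s1 n U) hs1 (by omega) (hU.s1 hS)
      have h5 := ic_mono n (t + 1) _ _ (up_s1 hS hU)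
      set a0 := ic n (t + 1) (s0 n U) with ha0
      set a1 := ic n t (s1 n U) with ha1
      have h6 : n.choose (t + 1) * a1 ≤ n.choose t * a0 := h4.trans (Nat.mul_le_mul_left _ h5)
      have h7 : n.choose (t + 1) * (t + 1) = n.choose t * (n - t) := Nat.choose_succ_right_eq n t
      have h8 : (n - t) * a1 ≤ (t + 1) * a0 := by
        have hb : 0 < n.choose t := Nat.choose_pos (by omega)
        refine Nat.le_of_mul_le_mul_left ?_ hb
        calc n.choose t * ((n - t) * a1) = (n.choose (t + 1) * a1) * (t + 1) := by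
              rw [← mul_assoc, ← h7]; ring
          _ ≤ (n.choose t * a0) * (t + 1) := Nat.mul_le_mul_right _ h6
          _ = n.choose t * ((t + 1) * a0) := by ring
      have h9 : ((n : ℝ) - t) * a1 ≤ (t + 1) * a0 := by
        have h10 : (((n - t : ℕ) : ℝ)) * a1 ≤ ((t : ℝ) + 1) * a0 := by exact_mod_cast h8
        rwa [Nat.cast_sub (by omega)] at h10
      push_cast at h3 ⊢
      rw [← hcd]
      have hn3 : (t : ℝ) + 1 ≤ n := by
        have : t + 1 ≤ n := by omega
        exact_mod_cast this
      set x : ℝ := (n : ℝ) - t with hx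
      have hx1 : 1 ≤ x := by linarith
      set y : ℝ := (n : ℝ) - 2 * t - 1 with hy
      -- h3 : x u0 ≤ x d0 + y a0 ; h1 : (x+1) u1 ≤ (x+1) d1 + (y+2) a1 ; goal with (x+1), (y+1)
      have h3' : x * ((s0 n U).card : ℝ) ≤ x * ((∂ (s0 n U)).card : ℝ) + y * a0 := by
        have e1 : (n : ℝ) - (t + 1) + 1 = x := by rw [hx]; ring
        have e2 : (n : ℝ) - 2 * (t + 1) + 1 = y := by rw [hy]; ring
        rwa [e1, e2] at h3
      have h1' : (x + 1) * ((s1 n U).card : ℝ) ≤ (x + 1) * ((∂ (s1 n U)).card : ℝ) +
          (y + 2) * a1 := by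
        have e1 : (n : ℝ) - t + 1 = x + 1 := by rw [hx]
        have e2 : (n : ℝ) - 2 * t + 1 = y + 2 := by rw [hy]; ring
        rwa [e1, e2] at h1
      have e3 : (n : ℝ) + 1 - (t + 1) + 1 = x + 1 := by rw [hx]; ring
      have e4 : (n : ℝ) + 1 - 2 * (t + 1) + 1 = y + 1 := by rw [hy]; ring
      rw [e3, e4]
      have hxy : x - y = t + 1 := by rw [hx, hy]; ring
      have h11 : x * a1 ≤ (x - y) * a0 := by rw [hxy]; exact h9
      have hx0 : 0 < x := by linarith
      -- multiply the goal by `x`
      have key : x * ((x + 1) * (((s0 n U).card : ℝ) + (s1 n U).card)) ≤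
          x * ((x + 1) * (((∂ (s0 n U)).card : ℝ) + (∂ (s1 n U)).card) + (y + 1) * (a0 + a1)) := by
        nlinarith [mul_le_mul_of_nonneg_left h3' (by linarith : (0 : ℝ) ≤ x + 1),
          mul_le_mul_of_nonneg_left h1' hx0.le]
      have key2 := le_of_mul_le_mul_left key hx0
      nlinarith [mul_le_mul_of_nonneg_left hsh (by linarith : (0 : ℝ) ≤ x + 1)]

end Pool.Agent.RKS
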