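import Pool.Agent.RKS.Main

/-! # MP_f155e9_co: simultaneous shifting of a family and an intersecting subfamily -/

set_option autoImplicit false

namespace Pool.Agent.RKS

open Finset UV
open scoped FinsetFamily

/-- the measure which shifting decreases -/
private def me (𝒜 : Finset (Finset ℕ)) : ℕ := ∑ A ∈ 𝒜, ∑ a ∈ A, 2 ^ a

private theorem compress_eq {i j : ℕ} (hij : i ≠ j) (A : Finset ℕ) :
    compress {i} {j} A = if i ∉ A ∧ j ∈ A then insert i (A.erase j) else A := by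
  unfold compress
  by_cases h : i ∉ A ∧ j ∈ A
  · rw [if_pos h, if_pos]
    · ext x
      simp only [Finset.sup_eq_union, Finset.mem_sdiff, Finset.mem_union, Finset.mem_singleton,
        Finset.mem_insert, Finset.mem_erase]
      constructor
      · rintro ⟨h1 | h1, h2⟩
        · exact Or.inr ⟨h2, h1⟩
        · exact Or.inl h1
      · rintro (h1 | h1)
        · exact ⟨Or.inr h1, fun h2 => hij (h1.symm.trans h2)⟩
        · exact ⟨Or.inl h1.2, h1.1⟩
    · exact ⟨Finset.disjoint_singleton_left.2 h.1, Finset.singleton_subset_iff.2 h.2⟩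
  · rw [if_neg h, if_neg]
    rintro ⟨h1, h2⟩
    exact h ⟨Finset.disjoint_singleton_left.1 h1, Finset.singleton_subset_iff.1 h2⟩

private theorem me_lt {i j : ℕ} (hij : i < j) {𝒜 : Finset (Finset ℕ)}
    (a : 𝓒 {i} {j} 𝒜 ≠ 𝒜) : me (𝓒 {i} {j} 𝒜) < me 𝒜 := by
  rw [compression] at a ⊢
  have q : ∀ Q ∈ {A ∈ 𝒜 | compress {i} {j} A ∉ 𝒜}, compress {i} {j} Q ≠ Q := by grind
  have uA : {A ∈ 𝒜 | compress {i} {j} A ∈ 𝒜} ∪ {A ∈ 𝒜 | compress {i} {j} A ∉ 𝒜} = 𝒜 :=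
    filter_union_filter_not_eq _ _
  have ne₂ : {A ∈ 𝒜 | compress {i} {j} A ∉ 𝒜}.Nonempty := by
    contrapose! a
    rw [filter_image, a, image_empty, union_empty]
    rwa [a, union_empty] at uA
  rw [me, me, sum_union compress_disjoint]
  conv_rhs => rw [← uA]
  rw [sum_union (disjoint_filter_filter_not _ _ _), add_lt_add_iff_left, filter_image,
    sum_image compress_injOn]
  refine sum_lt_sum_of_nonempty ne₂ fun A hA ↦ ?_
  have h1 := q _ hA
  rw [compress_eq hij.ne] at h1 ⊢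
  split_ifs at h1 ⊢ with h2
  · rw [sum_insert (fun h => h2.1 (mem_of_mem_erase h)),
      ← add_sum_erase A (fun a : ℕ => 2 ^ a) h2.2, add_lt_add_iff_right]
    exact Nat.pow_lt_pow_right (by norm_num) hij
  · exact absurd rfl h1

private theorem me_le {i j : ℕ} (hij : i < j) (𝒜 : Finset (Finset ℕ)) :
    me (𝓒 {i} {j} 𝒜) ≤ me 𝒜 := by
  by_cases h : 𝓒 {i} {j} 𝒜 = 𝒜
  · rw [h]
  · exact (me_lt hij h).le

private theorem exists_pair {𝒜 : Finset (Finset ℕ)} (h : ¬ Shf 𝒜) :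
    ∃ i j : ℕ, i < j ∧ 𝓒 {i} {j} 𝒜 ≠ 𝒜 := by
  unfold Shf at h
  push Not at h
  obtain ⟨A, hA, i, j, hij, hj, hi, hne⟩ := h
  refine ⟨i, j, hij, fun heq => hne ?_⟩
  have h1 : compress {i} {j} A ∈ 𝓒 {i} {j} 𝒜 := compress_mem_compression hA
  rw [compress_eq hij.ne, if_pos ⟨hi, hj⟩, heq] at h1
  exact h1

private theorem moved {i j : ℕ} (hij : i ≠ j) {𝒜 : Finset (Finset ℕ)}
    {A : Finset ℕ} (h : A ∉ 𝒜) (h2 : ∃ b ∈ 𝒜, compress {i} {j} b = A) :
    ∃ b ∈ 𝒜, i ∉ b ∧ j ∈ b ∧ A = insert i (b.erase j) := by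
  obtain ⟨b, hb, he⟩ := h2
  rw [compress_eq hij] at he
  split_ifs at he with h3
  · exact ⟨b, hb, h3.1, h3.2, he.symm⟩
  · exact absurd (he ▸ hb) h

private theorem inter_one {i j : ℕ} {A B : Finset ℕ}
    (hA : i ∉ A) (hjA : j ∈ A) (h1 : (A ∩ B).Nonempty)
    (h2 : i ∉ B → j ∈ B → (A ∩ insert i (B.erase j)).Nonempty) :
    (insert i (A.erase j) ∩ B).Nonempty := by
  by_cases hi : i ∈ B
  · exact ⟨i, mem_inter.2 ⟨mem_insert_self _ _, hi⟩⟩
  · by_cases hj : j ∈ B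
    · obtain ⟨x, hx⟩ := h2 hi hj
      rw [mem_inter, mem_insert, mem_erase] at hx
      rcases hx with ⟨h3, rfl | h4⟩
      · exact absurd h3 hA
      · exact ⟨x, mem_inter.2 ⟨mem_insert_of_mem (mem_erase.2 ⟨h4.1, h3⟩), h4.2⟩⟩
    · obtain ⟨x, hx⟩ := h1
      rw [mem_inter] at hx
      refine ⟨x, mem_inter.2 ⟨mem_insert_of_mem (mem_erase.2 ⟨?_, hx.1⟩), hx.2⟩⟩
      rintro rfl
      exact hj hx.2

private theorem cross {i j : ℕ} (hij : i ≠ j) {𝒜 : Finset (Finset ℕ)}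
    (hc : ∀ A ∈ 𝒜, ∀ B ∈ 𝒜, (A ∩ B).Nonempty) :
    ∀ A ∈ 𝓒 {i} {j} 𝒜, ∀ B ∈ 𝓒 {i} {j} 𝒜, (A ∩ B).Nonempty := by
  intro A hA B hB
  rw [mem_compression] at hA hB
  have hcomp : ∀ {D : Finset ℕ},
      compress {i} {j} D ∈ 𝒜 → i ∉ D → j ∈ D → insert i (D.erase j) ∈ 𝒜 := by
    intro D h hi hj
    rwa [compress_eq hij, if_pos ⟨hi, hj⟩] at h
  rcases hA with ⟨hA, hA2⟩ | ⟨hA, hA2⟩
  · rcases hB with ⟨hB, hB2⟩ | ⟨hB, hB2⟩
    · exact hc A hA B hB
    · obtain ⟨b, hb, hi, hj, rfl⟩ := moved hij hB hB2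
      rw [inter_comm]
      refine inter_one hi hj (by rw [inter_comm]; exact hc A hA b hb) (fun h1 h2 => ?_)
      rw [inter_comm]
      exact hc _ (hcomp hA2 h1 h2) b hb
  · obtain ⟨a, ha, hi, hj, rfl⟩ := moved hij hA hA2
    rcases hB with ⟨hB, hB2⟩ | ⟨hB, hB2⟩
    · exact inter_one hi hj (hc a ha B hB) (fun h1 h2 => hc a ha _ (hcomp hB2 h1 h2))
    · obtain ⟨b, hb, hi', hj', rfl⟩ := moved hij hB hB2
      exact ⟨i, mem_inter.2 ⟨mem_insert_self _ _, mem_insert_self _ _⟩⟩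

private theorem size_comp {n r : ℕ} {i j : ℕ} (hij : i < j) {𝒜 : Finset (Finset ℕ)}
    (hA : Sz n r 𝒜) : Sz n r (𝓒 {i} {j} 𝒜) := by
  intro A hA'
  rw [mem_compression] at hA'
  rcases hA' with ⟨h, _⟩ | ⟨hA1, hA2⟩
  · exact hA A h
  · obtain ⟨b, hb, hi, hj, rfl⟩ := moved hij.ne hA1 hA2
    obtain ⟨h1, h2⟩ := hA b hb
    refine ⟨fun x hx => ?_, ?_⟩
    · rcases mem_insert.1 hx with h3 | h3
      · have := mem_range.1 (h1 hj)
        exact mem_range.2 (by omega)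
      · exact h1 (mem_of_mem_erase h3)
    · rw [card_insert_of_notMem (fun h => hi (mem_of_mem_erase h)), card_erase_of_mem hj, h2]
      have : 0 < b.card := card_pos.2 ⟨j, hj⟩
      omega

private theorem comp_mono {i j : ℕ} {P U : Finset (Finset ℕ)} (h : P ⊆ U) :
    𝓒 {i} {j} P ⊆ 𝓒 {i} {j} U := by
  intro B hB
  rw [mem_compression] at hB ⊢
  rcases hB with ⟨h1, h2⟩ | ⟨h1, b, hb, rfl⟩
  · exact Or.inl ⟨h h1, h h2⟩
  · by_cases h3 : compress {i} {j} b ∈ U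
    · refine Or.inl ⟨h3, ?_⟩
      rw [compress_idem]
      exact h3
    · exact Or.inr ⟨h3, b, h hb, rfl⟩

private theorem shadow_comp {i j : ℕ} (U : Finset (Finset ℕ)) :
    (∂ (𝓒 {i} {j} U)).card ≤ (∂ U).card := by
  refine card_shadow_compression_le {i} {j} ?_
  intro x hx
  refine ⟨j, mem_singleton_self j, ?_⟩
  rw [mem_singleton.1 hx, erase_singleton, erase_singleton]
  exact isCompressed_self _ _

/-- simultaneous shifting -/
theorem exists_shifted {n r : ℕ} : ∀ (m : ℕ) (U P : Finset (Finset ℕ)), me U + me P ≤ m →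
    Sz n r U → P ⊆ U → (∀ A ∈ P, ∀ B ∈ P, (A ∩ B).Nonempty) →
    ∃ U' P' : Finset (Finset ℕ), U'.card = U.card ∧ P'.card = P.card ∧ Sz n r U' ∧ P' ⊆ U' ∧
      (∀ A ∈ P', ∀ B ∈ P', (A ∩ B).Nonempty) ∧ Shf U' ∧ Shf P' ∧ (∂ U').card ≤ (∂ U).card := by
  have step : ∀ U P : Finset (Finset ℕ), ¬ (Shf U ∧ Shf P) → ∃ i j : ℕ, i < j ∧
      me (𝓒 {i} {j} U) + me (𝓒 {i} {j} P) < me U + me P := by
    intro U P h
    rw [not_and_or] at h
    rcases h with h | h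
    · obtain ⟨i, j, hij, hne⟩ := exists_pair h
      have h1 := me_lt hij hne
      have h2 := me_le hij P
      exact ⟨i, j, hij, by omega⟩
    · obtain ⟨i, j, hij, hne⟩ := exists_pair h
      have h1 := me_lt hij hne
      have h2 := me_le hij U
      exact ⟨i, j, hij, by omega⟩
  intro m
  induction m with
  | zero =>
    intro U P hm hS hPU hint
    by_cases h : Shf U ∧ Shf P
    · exact ⟨U, P, rfl, rfl, hS, hPU, hint, h.1, h.2, le_refl _⟩
    · obtain ⟨i, j, hij, h1⟩ := step U P h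
      omega
  | succ m ih =>
    intro U P hm hS hPU hint
    by_cases h : Shf U ∧ Shf P
    · exact ⟨U, P, rfl, rfl, hS, hPU, hint, h.1, h.2, le_refl _⟩
    · obtain ⟨i, j, hij, h1⟩ := step U P h
      obtain ⟨U', P', h2, h3, h4, h5, h6, h7, h8, h9⟩ := ih (𝓒 {i} {j} U) (𝓒 {i} {j} P)
        (by omega) (size_comp hij hS) (comp_mono hPU) (cross hij.ne hint)
      exact ⟨U', P', by rw [h2, card_compression], by rw [h3, card_compression], h4, h5, h6, h7,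
        h8, h9.trans (shadow_comp U)⟩

/-- the shadow of a family with a large intersecting subfamily, in `range n` -/
theorem shadow_range {n r : ℕ} (hr : 2 * r ≤ n) {U P : Finset (Finset ℕ)} (hS : Sz n r U)
    (hPU : P ⊆ U) (hint : ∀ A ∈ P, ∀ B ∈ P, (A ∩ B).Nonempty) :
    ((n : ℝ) - r + 1) * U.card ≤ ((n : ℝ) - r + 1) * (∂ U).card +
      2 * ((n : ℝ) - 2 * r + 1) * (U \ P).card := by
  obtain ⟨U', P', h2, h3, h4, h5, h6, h7, h8, h9⟩ :=
    exists_shifted (n := n) (r := r) _ U P (le_refl _) hS hPU hint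
  have hE := shadow_ge n r U' h4 hr h7
  have hI := ic_le_two_mul n r U' P' h4 hr h5 h8 h6
  have hc : (U' \ P').card = (U \ P).card := by
    rw [card_sdiff_of_subset h5, card_sdiff_of_subset hPU, h2, h3]
  rw [hc] at hI
  rw [h2] at hE
  have hI' : (ic n r U' : ℝ) ≤ 2 * (U \ P).card := by exact_mod_cast hI
  have h9' : ((∂ U').card : ℝ) ≤ (∂ U).card := by exact_mod_cast h9
  have hr' : 2 * (r : ℝ) ≤ n := by exact_mod_cast hr
  have hr0 : (0 : ℝ) ≤ r := Nat.cast_nonneg r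
  nlinarith [mul_le_mul_of_nonneg_left hI' (by linarith : (0 : ℝ) ≤ (n : ℝ) - 2 * r + 1),
    mul_le_mul_of_nonneg_left h9' (by linarith : (0 : ℝ) ≤ (n : ℝ) - r + 1)]

end Pool.Agent.RKS
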